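import Pool.Agent.H68.QT.Targets
import Pool.Agent.H69.QC.TJF

/-!
# Towers of quantum algorithms and quantifiers: module TJT
-/

set_option autoImplicit false

namespace Pool.Agent.H65.QT

open Finset Filter Pool.Agent.H6.NB Pool.Agent.H70.OQ Pool.Agent.H70.RK Pool.Agent.H68.QC
open Pool.Agent.H68.QT
open Pool.Agent.H69.QC (fin loc_mono elam_nonneg)

private theorem tabB_mono {X : Type} {Y : ℕ → Type} [Fintype X] [DecidableEq X]
    [∀ i, Fintype (Y i)] [∀ i, DecidableEq (Y i)] {b : Bool} {K i M : ℕ}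
    {C : Cls (Node X Y (i + 1))} {E E' : ℝ} (h : TabB X Y b K i M C E) (hE : E ≤ E') :
    TabB X Y b K i M C E' := fun L V1 V0 hC hL =>
  (h L V1 V0 hC hL).trans (mul_le_mul_of_nonneg_right hE (Nat.cast_nonneg _))

private theorem eL_nonneg (m j D : ℕ) : 0 ≤ eL m j D := by
  unfold eL
  positivity

private theorem eC_nonneg (m j D : ℕ) : 0 ≤ eC m j D := by
  unfold eC
  positivity

/-- The error without the last term of type `elam`. -/
private noncomputable def Sp (n m W g : ℕ) (q2 : ℝ) (i : ℕ) : ℝ :=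
  ∑ r ∈ range (i + 1), (eL m (r + 1) W + (2 ^ nod n r) ^ 2 * (1 - q2) ^ 2 ^ (n - g) +
    2 * eC m r W) + ∑ r ∈ range i, elam n r g (1 / (64 * W))

private theorem Sp_nonneg {n m W g : ℕ} {q2 : ℝ} (hW : 1 ≤ W) (hq : q2 ≤ 1 / 2) (i : ℕ) :
    0 ≤ Sp n m W g q2 i := by
  unfold Sp
  have h : (0 : ℝ) ≤ 1 - q2 := by linarith
  refine add_nonneg (Finset.sum_nonneg fun r _ => ?_)
    (Finset.sum_nonneg fun r _ => elam_nonneg n r g W hW)
  have h1 := eL_nonneg m (r + 1) W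
  have h2 := eC_nonneg m r W
  have h3 : 0 ≤ ((2 : ℝ) ^ nod n r) ^ 2 * (1 - q2) ^ 2 ^ (n - g) := by positivity
  linarith

private theorem Sp_le {n m W g : ℕ} {q2 : ℝ} (hW : 1 ≤ W) (i : ℕ) :
    Sp n m W g q2 i ≤ ∑ r ∈ range (i + 1), (eL m (r + 1) W +
      (2 ^ nod n r) ^ 2 * (1 - q2) ^ 2 ^ (n - g) + 2 * eC m r W +
        elam n r g (1 / (64 * W))) := by
  unfold Sp
  have h := elam_nonneg n i g W hW
  have h1 : ∑ r ∈ range (i + 1), elam n r g (1 / (64 * (W : ℝ))) =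
      ∑ r ∈ range i, elam n r g (1 / (64 * (W : ℝ))) + elam n i g (1 / (64 * (W : ℝ))) :=
    Finset.sum_range_succ _ _
  rw [Finset.sum_add_distrib (f := fun r => eL m (r + 1) W +
      (2 ^ nod n r) ^ 2 * (1 - q2) ^ 2 ^ (n - g) + 2 * eC m r W), h1]
  linarith

/-- The induction over the levels which belong to the tower. -/
private theorem base (hBTA : T_BTA) (hBTB : T_BTB) (hCDN : T_CDN) {n m W K g m0 : ℕ} {T q2 : ℝ}
    (hT : 0 ≤ T) (hW : 1 ≤ W) (hg : g ≤ n) (hq : 0 < q2) (hq' : q2 ≤ 1 / 2)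
    (h1 : 2 * 10 ^ 4 * q2 * (T + 1) ^ 2 * W * W ≤ 1) (h2 : 576 * T ^ 2 * W ≤ m0)
    (h3 : 2 * ((m0 : ℝ) + 2) ≤ K * (1 / (64 * W))) (i : ℕ) :
    TabB (Fin n → Bool) (Ys n) true K i (2 ^ (n - g) * Fintype.card (Nn n i))
      (TwC (Nn n (i + 1)) m T W (i + 1)) (Sp n m W g q2 i) := by
  have hWR : (0 : ℝ) < W := by exact_mod_cast hW
  have hqp : (0 : ℝ) < 1 / (64 * W) := by positivity
  have hqW : 64 * (W : ℝ) * (1 / (64 * W)) ≤ 1 := by rw [mul_one_div_cancel (by positivity)]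
  induction i with
  | zero =>
    refine tabB_mono (hBTA (Fin n → Bool) (Ys n) m W (2 ^ (n - g)) K m0 T q2 (1 / (64 * W)) hT hW hq
      hq' h1 hqp hqW Nat.one_le_two_pow h2 h3) (le_of_eq ?_)
    unfold Sp
    rw [(hCDN n 0).1, Finset.sum_range_one, Finset.sum_range_zero]
    push_cast
    ring
  | succ i ih =>
    have hcard : 2 ^ g * (2 ^ (n - g) * Fintype.card (Nn n i)) ≤ Fintype.card (Ys n i) := by
      rw [(hCDN n i).1, (hCDN n i).2, ← mul_assoc, ← pow_add, Nat.add_sub_cancel' hg]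
    refine tabB_mono (hBTB (Fin n → Bool) (Ys n) m W (2 ^ (n - g)) (2 ^ g) K i T q2 (1 / (64 * W))
      (Sp n m W g q2 i) hT hW hq hq' h1 hqp hqW Nat.one_le_two_pow (Sp_nonneg hW hq' i) hcard ih) ?_
    have e1 : Sp n m W g q2 (i + 1) = Sp n m W g q2 i + (eL m (i + 1 + 1) W +
        (2 ^ nod n (i + 1)) ^ 2 * (1 - q2) ^ 2 ^ (n - g) + 2 * eC m (i + 1) W) +
        elam n i g (1 / (64 * W)) := by
      unfold Sp
      rw [Finset.sum_range_succ _ (i + 1),
        Finset.sum_range_succ (fun r => elam n r g (1 / (64 * (W : ℝ)))) i]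
      ring
    have e2 : (Fintype.card (Nn n i) : ℝ) * (2 ^ (n - g) * Fintype.card (Nn n i) : ℕ) *
        (1 - 1 / (64 * (W : ℝ))) ^ 2 ^ g = elam n i g (1 / (64 * W)) := by
      unfold elam
      rw [(hCDN n i).1]
      push_cast
      ring
    have e3 : (Fintype.card (Nn n (i + 1)) : ℝ) * Fintype.card (Nn n (i + 1)) =
        (2 ^ nod n (i + 1)) ^ 2 := by
      rw [(hCDN n (i + 1)).1]
      push_cast
      ring
    have e4 := eC_nonneg m (i + 1) W
    rw [e1, e2, e3]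
    have e5 : eL m (i + 2) W = eL m (i + 1 + 1) W := rfl
    rw [e5]
    linarith

private theorem bad_mono {X : Type} {Y : ℕ → Type} [Fintype X] [DecidableEq X]
    [∀ i, DecidableEq (Y i)] {K i : ℕ} {V1 V0 V1' V0' : (Node X Y i → Bool) → Prop} {H : Hid X Y i}
    (h1 : ∀ y, V1 y → V1' y) (h0 : ∀ y, V0 y → V0' y) (h : Bad true K i V1 V0 H) :
    Bad true K i V1' V0' H := by
  unfold Bad at h ⊢
  simp only [if_true] at h ⊢
  exact ⟨h.1.trans_le (Set.ncard_le_ncard (fun x hx => h1 _ hx) (Set.toFinite _)),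
    h.2.trans_le (Set.ncard_le_ncard (fun x hx => h0 _ hx) (Set.toFinite _))⟩

private theorem ic_mono {P Q : Prop} (h : P → Q) : ic P ≤ ic Q := by
  unfold ic
  by_cases hP : P
  · rw [if_pos hP, if_pos (h hP)]
  · rw [if_neg hP]
    by_cases hQ : Q
    · rw [if_pos hQ]
      exact zero_le_one
    · rw [if_neg hQ]

/-- TJT: the table lemma for towers, at least one quantifier. -/
theorem pf_TJT (hBTA : T_BTA) (hBTB : T_BTB) (hTWF : T_TWF) (hTWM : T_TWM) (hTLC : T_TLC)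
    (hPAT : T_PAT) (hSTP : T_STP) (hCDN : T_CDN) : T_TJT := by
  intro k i0 c C ε hε
  filter_upwards [hPAT k i0 c C ε hε] with n hn
  intro mw m M e hmw hm hmn hTS he
  obtain ⟨t, w, W, K, g, m0, q2, htk, ht, hw, hg, hW, htW, hq2, hq2', hTq, hm0, hmK, hK, hsum⟩ :=
    hn m hm hmn
  refine ⟨K, hK, ?_⟩
  have hT0 : (0 : ℝ) ≤ C * 2 ^ ((1 / 2 - ε) * n) := by positivity
  obtain ⟨hY, hN⟩ := hTLC mw (i0 + 1) _ M hTS
  have hb := base hBTA hBTB hCDN (m := m) hT0 hW hg hq2 hq2' hTq hm0 hmK i0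
  have hbase : TabB (Fin n → Bool) (Ys n) true K i0 (2 ^ (n - g) * Fintype.card (Nn n i0))
      (Fam (Nn n (i0 + 1)) (Acc mw (i0 + 1) M) (Rej mw (i0 + 1) M) (t 0) 0)
      (Sp n m W g q2 i0) := by
    intro L V1 V0 hC hL
    obtain ⟨V1', V0', hC', hV⟩ := hTWF (Nn n (i0 + 1)) mw m (i0 + 1) (t 0) _ M V1 V0 hmw hTS hC
    have hC2 := hTWM (Nn n (i0 + 1)) m (i0 + 1) (t 0) W _ V1' V0' htW hC'
    refine le_trans ?_ (hb L V1' V0' hC2 hL)
    refine Finset.sum_le_sum fun H _ => Finset.sum_le_sum fun h _ => ?_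
    refine mul_le_mul_of_nonneg_left (ic_mono fun hB => bad_mono
      (fun y hy => (hV y fun v hv => absurd hv (by simp)).1 hy)
      (fun y hy => (hV y fun v hv => absurd hv (by simp)).2 hy) hB) ?_
    unfold uw
    refine Finset.prod_nonneg fun a _ => ?_
    split_ifs <;> positivity
  refine fin hSTP hCDN t w (fun s => s) (fun _ => rfl) hg k ht hw (loc_mono hY hmw)
    (loc_mono hN hmw) (Sp_nonneg hW hq2' i0) hbase ?_ (by omega) ?_
  · exact le_trans (add_le_add_right (Sp_le hW i0) _) hsum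
  · exact ⟨e, fun w => by rw [htk]; exact he w, fun _ => Iff.rfl, fun _ => Iff.rfl⟩

end Pool.Agent.H65.QT
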